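import Pool.Agent.H66.FA.T

/-!
# Row (EXP): the one-parameter group
-/

set_option autoImplicit false

open Matrix

namespace Pool.Agent.H89.FAB

open Pool.Agent.H63.Fins Pool.Agent.H66.FA Filter Topology

variable {m : ℕ}

/-! ### The exponential of a matrix -/

open scoped Matrix.Norms.Operator in
theorem exp_der (A : Matrix (Fin m) (Fin m) ℝ) (i j : Fin m) (t : ℝ) :
    HasDerivAt (fun t : ℝ => (NormedSpace.exp (t • A)) i j)
      ((A * NormedSpace.exp (t • A)) i j) t := by
  have h1 : HasDerivAt (fun u : ℝ => NormedSpace.exp (u • A)) (A * NormedSpace.exp (t • A)) t :=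
    hasDerivAt_exp_smul_const' A t
  exact ((LinearMap.toContinuousLinearMap
    (Matrix.entryLinearMap ℝ ℝ i j)).hasFDerivAt).comp_hasDerivAt t h1

open scoped Matrix.Norms.Operator in
theorem exp_smooth (A : Matrix (Fin m) (Fin m) ℝ) (i j : Fin m) :
    ContDiff ℝ (⊤ : ℕ∞) (fun t : ℝ => (NormedSpace.exp (t • A)) i j) := by
  have h1 : ContDiff ℝ (⊤ : ℕ∞) (fun M : Matrix (Fin m) (Fin m) ℝ => NormedSpace.exp M) := by
    rw [contDiff_iff_contDiffAt]
    intro x
    exact (NormedSpace.exp_analytic (𝕂 := ℝ) x).contDiffAt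
  have h2 : ContDiff ℝ (⊤ : ℕ∞) (fun t : ℝ => t • A) := contDiff_id.smul contDiff_const
  exact (LinearMap.toContinuousLinearMap
    (Matrix.entryLinearMap ℝ ℝ i j)).contDiff.comp (h1.comp h2)

open scoped Matrix.Norms.Operator in
theorem exp_comm (A : Matrix (Fin m) (Fin m) ℝ) (t : ℝ) :
    A * NormedSpace.exp (t • A) = NormedSpace.exp (t • A) * A :=
  (((Commute.refl A).smul_right t).exp_right).eq

theorem exp_add (A : Matrix (Fin m) (Fin m) ℝ) (s t : ℝ) :
    NormedSpace.exp ((s + t) • A) = NormedSpace.exp (s • A) * NormedSpace.exp (t • A) := by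
  rw [add_smul]
  exact Matrix.exp_add_of_commute _ _ (((Commute.refl A).smul_left s).smul_right t)

/-! ### The linear maps -/

/-- the generator -/
noncomputable def exB (A : Matrix (Fin m) (Fin m) ℝ) : V (m + 1) →L[ℝ] V (m + 1) :=
  LinearMap.toContinuousLinearMap
    { toFun := fun y => Fin.cons 0 (A *ᵥ Fin.tail y)
      map_add' := by
        intro x y
        funext i
        refine Fin.cases ?_ (fun j => ?_) i
        · simp
        · have h : Fin.tail (x + y) = Fin.tail x + Fin.tail y := rfl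
          simp [h, Matrix.mulVec_add]
      map_smul' := by
        intro c y
        funext i
        refine Fin.cases ?_ (fun j => ?_) i
        · simp
        · have h : Fin.tail (c • y) = c • Fin.tail y := rfl
          simp [h, Matrix.mulVec_smul] }

/-- the group -/
noncomputable def exE (A : Matrix (Fin m) (Fin m) ℝ) (t : ℝ) : V (m + 1) →L[ℝ] V (m + 1) :=
  LinearMap.toContinuousLinearMap
    { toFun := fun y => Fin.cons (y 0) (NormedSpace.exp (t • A) *ᵥ Fin.tail y)
      map_add' := by
        intro x y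
        funext i
        refine Fin.cases ?_ (fun j => ?_) i
        · simp
        · have h : Fin.tail (x + y) = Fin.tail x + Fin.tail y := rfl
          simp [h, Matrix.mulVec_add]
      map_smul' := by
        intro c y
        funext i
        refine Fin.cases ?_ (fun j => ?_) i
        · simp
        · have h : Fin.tail (c • y) = c • Fin.tail y := rfl
          simp [h, Matrix.mulVec_smul] }

theorem exB_apply (A : Matrix (Fin m) (Fin m) ℝ) (y : V (m + 1)) :
    exB A y = Fin.cons 0 (A *ᵥ Fin.tail y) := rfl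

theorem exE_apply (A : Matrix (Fin m) (Fin m) ℝ) (t : ℝ) (y : V (m + 1)) :
    exE A t y = Fin.cons (y 0) (NormedSpace.exp (t • A) *ᵥ Fin.tail y) := rfl

theorem exE_tail (A : Matrix (Fin m) (Fin m) ℝ) (t : ℝ) (y : V (m + 1)) :
    (Fin.tail (exE A t y) : Fin m → ℝ) = NormedSpace.exp (t • A) *ᵥ Fin.tail y := rfl

theorem exB_tail (A : Matrix (Fin m) (Fin m) ℝ) (y : V (m + 1)) :
    (Fin.tail (exB A y) : Fin m → ℝ) = A *ᵥ Fin.tail y := rfl

theorem exE_der (A : Matrix (Fin m) (Fin m) ℝ) (t : ℝ) (y : V (m + 1)) :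
    HasDerivAt (fun t => exE A t y) (exB A (exE A t y)) t := by
  rw [hasDerivAt_pi]
  intro i
  refine Fin.cases ?_ (fun j => ?_) i
  · exact hasDerivAt_const t (y 0)
  · have h1 : HasDerivAt (fun t : ℝ => ∑ k, NormedSpace.exp (t • A) j k * Fin.tail y k)
        (∑ k, (A * NormedSpace.exp (t • A)) j k * Fin.tail y k) t := by
      apply HasDerivAt.fun_sum
      intro k _
      exact (exp_der A j k t).mul_const _
    have h2 : exB A (exE A t y) j.succ =
        ∑ k, (A * NormedSpace.exp (t • A)) j k * Fin.tail y k := by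
      change (A *ᵥ (NormedSpace.exp (t • A) *ᵥ Fin.tail y)) j = _
      rw [Matrix.mulVec_mulVec]
      rfl
    rw [h2]
    exact h1

theorem exE_smooth (A : Matrix (Fin m) (Fin m) ℝ) :
    ContDiff ℝ (⊤ : ℕ∞) fun p : ℝ × V (m + 1) => exE A p.1 p.2 := by
  rw [contDiff_pi]
  intro i
  refine Fin.cases ?_ (fun j => ?_) i
  · change ContDiff ℝ (⊤ : ℕ∞) fun p : ℝ × V (m + 1) => p.2 0
    fun_prop
  · change ContDiff ℝ (⊤ : ℕ∞) fun p : ℝ × V (m + 1) =>
      ∑ k, NormedSpace.exp (p.1 • A) j k * p.2 k.succ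
    apply ContDiff.sum
    intro k _
    refine ContDiff.mul ((exp_smooth A j k).comp contDiff_fst) ?_
    fun_prop

theorem pf_EXP : T_EXP := by
  intro m A hA
  refine ⟨exB A, exE A, ⟨?_, ?_, ?_, ?_, exE_smooth A, ?_, ?_, ?_, ?_⟩, fun t y => exE_apply A t y⟩
  · intro y
    rw [exE_apply, zero_smul, NormedSpace.exp_zero, Matrix.one_mulVec]
    exact Fin.cons_self_tail y
  · intro s t y
    rw [exE_apply, exE_apply A s, exE_tail, exp_add, Matrix.mulVec_mulVec]
    rfl
  · intro t y
    exact exE_der A t y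
  · intro t y
    rw [exB_apply, exE_tail, exE_apply, exB_tail, Matrix.mulVec_mulVec, Matrix.mulVec_mulVec,
      exp_comm]
    rfl
  · intro y
    rfl
  · rw [exB_apply]
    have h : (Fin.tail (ee 0 : V (m + 1)) : Fin m → ℝ) = 0 := by
      funext k
      change (Pi.single 0 1 : V (m + 1)) k.succ = 0
      rw [Pi.single_eq_of_ne (Fin.succ_ne_zero k)]
    rw [h, Matrix.mulVec_zero]
    funext i
    refine Fin.cases ?_ (fun j => ?_) i
    · rfl
    · rfl
  · intro t y
    rfl
  · intro y hy
    rw [tendsto_pi_nhds]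
    intro i
    refine Fin.cases ?_ (fun j => ?_) i
    · change Tendsto (fun _ : ℝ => y 0) atTop (𝓝 0)
      rw [hy]
      exact tendsto_const_nhds
    · have h := tendsto_pi_nhds.mp (hA (Fin.tail y)) j
      exact h

end Pool.Agent.H89.FAB
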